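import Pool.Agent.Q267.E8.Stm

set_option autoImplicit false

namespace Pool.Agent.Q239.E8

open Finset Pool.Agent.Q267.CDE Pool.Agent.Q267.MW Pool.Agent.Q267.E8

theorem mul_inv_of_isUnit {n : ℕ} {u : ZMod n} (h : IsUnit u) : u * u⁻¹ = 1 := by
  obtain ⟨v, rfl⟩ := h
  rw [ZMod.inv_coe_unit, Units.mul_inv]

theorem red_inv (p : ℕ) [Fact p.Prime] (u : R p) (h : red p u ≠ 0) : red p u⁻¹ = (red p u)⁻¹ := by
  have h1 := mul_inv_of_isUnit (isUnit_of_red p h)
  have h2 := congrArg (red p) h1
  rw [map_mul, map_one] at h2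
  exact eq_inv_of_mul_eq_one_right h2

theorem fact_ne (p : ℕ) [hp : Fact p.Prime] (k : ℕ) (hk : k < p) : ((k.factorial : ℕ) : ZMod p) ≠ 0 := by
  rw [Ne, ZMod.natCast_eq_zero_iff, hp.out.dvd_factorial]
  omega

theorem red_bR (p : ℕ) [Fact p.Prime] (x : R p) (k : ℕ) (hk : k < p) :
    red p (bR p x k) = (∏ i ∈ range k, (red p x - (i : ZMod p))) * ((k.factorial : ℕ) : ZMod p)⁻¹ := by
  unfold bR
  rw [map_mul, map_prod, red_inv, red_nat]
  · simp only [map_sub, red_nat]
  · rw [red_nat]; exact fact_ne p k hk

theorem prod_neg_succ (F : Type) [Field F] (j : ℕ) :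
    ∏ i ∈ range j, (0 - ((i : F) + 1)) = (-1) ^ j * ((j.factorial : ℕ) : F) := by
  induction j with
  | zero => simp
  | succ j ih =>
    rw [prod_range_succ, ih, Nat.factorial_succ]
    push_cast
    ring

theorem tz : S_TZ := by
  intro p hp h c hp2 hh
  have hp1 : 1 < p := hp.out.one_lt
  obtain ⟨n, hn⟩ : ∃ n, p = n + 1 := ⟨p - 1, by omega⟩
  have h2 : (2 : ZMod p) ≠ 0 := by
    have := cast_ne p 2 (by omega) (by omega)
    simpa using this
  have hhr : red p h = -(2 : ZMod p)⁻¹ := by
    have := congrArg (red p) hh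
    rw [map_mul, map_neg, map_one] at this
    have h3 : red p (2 : R p) = 2 := by
      have := red_nat p 2
      simpa using this
    rw [h3] at this
    field_simp
    linear_combination this
  -- the sum without the factor
  set Y : R p := ∑ j ∈ range (p - 1), (∏ i ∈ range j, ((p : R p) * c - ((i : R p) + 1))) *
    (((j + 1).factorial : ℕ) : R p)⁻¹ * (((j + 1).centralBinom : ℕ) : R p) * h ^ (j + 1) with hY
  have hTT : TT p h (p * c) = 1 + p * (c * Y) := by
    unfold TT
    have e : range p = range ((p - 1) + 1) := by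
      congr 1; omega
    rw [e, sum_range_succ']
    have e0 : bR p (p * c) 0 * ((Nat.centralBinom 0 : ℕ) : R p) * h ^ 0 = 1 := by
      unfold bR
      simp
    rw [e0, add_comm]
    congr 1
    rw [hY, mul_sum, mul_sum]
    refine sum_congr rfl fun j _ => ?_
    unfold bR
    rw [prod_range_succ']
    push_cast
    ring
  rw [hTT, sub_eq_add_neg]
  congr 1
  rw [mul_assoc, ← mul_neg]
  apply p_mul_eq
  rw [map_mul, map_neg, map_mul, red_lift, ← mul_neg]
  congr 1
  rw [hY, map_sum, ← sum_neg_distrib]
  refine sum_congr rfl fun j hj => ?_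
  have hj' : j + 1 < p := by
    have := mem_range.1 hj
    omega
  rw [map_mul, map_mul, map_mul, map_prod, map_pow, red_nat, hhr, red_inv, red_nat]
  · have e1 : ∀ i ∈ range j, red p ((p : R p) * c - ((i : R p) + 1)) = 0 - ((i : ZMod p) + 1) := by
      intro i _
      rw [map_sub, map_mul, map_add, map_one, red_nat, red_nat, CharP.cast_eq_zero, zero_mul]
    rw [prod_congr rfl e1, prod_neg_succ, Nat.factorial_succ]
    have f1 := fact_ne p j (by omega)
    have f2 : ((j : ZMod p) + 1) ≠ 0 := by
      have := cast_ne p (j + 1) (by omega) hj'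
      push_cast at this
      exact this
    push_cast
    rw [neg_pow (2 : ZMod p)⁻¹ (j + 1), inv_pow]
    have e2 : (-1 : ZMod p) ^ j * (-1) ^ (j + 1) = -1 := by
      rw [← pow_add, show j + (j + 1) = 2 * j + 1 by ring, pow_succ, pow_mul]
      simp
    have f3 : (2 : ZMod p) ^ (j + 1) ≠ 0 := pow_ne_zero _ h2
    field_simp
    linear_combination ((j + 1).centralBinom : ZMod p) * e2
  · rw [red_nat]; exact fact_ne p (j + 1) hj'

theorem od : S_OD := by
  intro p hp h hp2 hh hrec l
  have hp1 : 1 < p := hp.out.one_lt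
  have hp3 : 3 ≤ p := by omega
  induction l with
  | zero =>
    intro x _ hx
    have h3 : red p (2 : R p) = 2 := by
      have := red_nat p 2
      simpa using this
    have hh' := congrArg (red p) hh
    rw [map_mul, map_neg, map_one, h3] at hh'
    unfold TT
    rw [map_sum]
    obtain ⟨n, hn⟩ : ∃ n, p = n + 2 := ⟨p - 2, by omega⟩
    have e : range p = range (n + 2) := by rw [hn]
    have hx1 : red p x = 1 := by rw [hx]; simp
    rw [e, sum_range_succ', sum_range_succ', sum_eq_zero]
    · simp only [map_mul, map_pow, red_nat, zero_add]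
      rw [red_bR p x 0 (by omega), red_bR p x 1 (by omega), hx1]
      have hc1 : Nat.centralBinom 1 = 2 := by norm_num [Nat.centralBinom, Nat.choose]
      rw [hc1]
      simp
      linear_combination hh'
    · intro k hk
      have hk' : k + 1 + 1 < p := by
        have := mem_range.1 hk
        omega
      rw [map_mul, map_mul, red_bR p x _ hk', hx1]
      have : ∏ i ∈ range (k + 1 + 1), ((1 : ZMod p) - (i : ZMod p)) = 0 := by
        apply prod_eq_zero (i := 1)
        · simp
        · simp
      rw [this]; ring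
  | succ l ih =>
    intro x hl hx
    have hy : red p (x - 2) = 2 * (l : ZMod p) + 1 := by
      have h3 : red p (2 : R p) = 2 := by
        have := red_nat p 2
        simpa using this
      rw [map_sub, hx, h3]; push_cast; ring
    have hne : (2 * ((l + 1 : ℕ) : ZMod p) + 1) ≠ 0 := by
      have := cast_ne p (2 * (l + 1) + 1) (by omega) hl
      push_cast at this ⊢
      exact this
    have h1 := ih (x - 2) (by omega) hy
    have h2 := hrec (x - 2) (by
      rw [hy]
      intro h4
      apply hne
      push_cast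
      linear_combination h4)
    have h5 := congrArg (red p) h2
    rw [show x - 2 + 2 = x by ring, map_mul, map_mul, h1, mul_zero, hx] at h5
    rcases mul_eq_zero.1 h5 with h6 | h6
    · exact absurd h6 hne
    · exact h6

end Pool.Agent.Q239.E8
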